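import Mathlib

/-!
Library Helper896.MR (helper896): arbitrarily long chains of integers with prescribed ratios.
-/

set_option autoImplicit false

namespace Pool.Agent.Helper896.MR

open Finset

lemma cop_w (M Q t : ℤ) (k : ℕ) (h : IsCoprime M Q) : IsCoprime (M * t - Q ^ k) M := by
  have h1 : IsCoprime (Q ^ k) M := h.symm.pow_left
  have h2 : IsCoprime (-(Q ^ k)) M := h1.neg_left
  have h3 := IsCoprime.add_mul_left_left h2 t
  have e : -(Q ^ k) + M * t = M * t - Q ^ k := by ring
  rw [e] at h3
  exact h3

lemma cop_q (A Q : ℤ) (k : ℕ) (h : IsCoprime A Q) : IsCoprime (A - Q ^ (k + 1)) Q := by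
  have h3 := IsCoprime.add_mul_left_left h (-(Q ^ k))
  have e : A + Q * -(Q ^ k) = A - Q ^ (k + 1) := by ring
  rw [e] at h3
  exact h3

/-- two conditions, solved by a positive number -/
lemma crt (W K z : ℤ) (hW : W ≠ 0) (hK : K ≠ 0) (h : IsCoprime W K) :
    ∃ L : ℤ, 0 < L ∧ K ∣ L ∧ W ∣ L + z := by
  obtain ⟨a, b, hab⟩ := h
  set L₀ : ℤ := -z * b * K with hL₀
  have h1 : K ∣ L₀ := Dvd.intro_left _ rfl
  have h2 : W ∣ L₀ + z := ⟨z * a, by
    rw [hL₀]
    linear_combination (-z) * hab⟩
  have hWK : 0 < (W * K) ^ 2 := by positivity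
  refine ⟨L₀ + (|L₀| + 1) * (W * K) ^ 2, ?_, ?_, ?_⟩
  · have h3 : -|L₀| ≤ L₀ := neg_abs_le L₀
    have h4 : |L₀| + 1 ≤ (|L₀| + 1) * (W * K) ^ 2 := by
      have : 0 ≤ |L₀| := abs_nonneg _
      nlinarith
    linarith
  · refine dvd_add h1 ?_
    exact ⟨(|L₀| + 1) * (W ^ 2 * K), by ring⟩
  · have e : L₀ + (|L₀| + 1) * (W * K) ^ 2 + z = (L₀ + z) + W * ((|L₀| + 1) * (W * K ^ 2)) := by ring
    rw [e]
    exact dvd_add h2 (Dvd.intro _ rfl)

/-- **chains**: `x i = Q ^ e i * u i` -/
theorem chain (P Q : ℤ) (hP : 0 < P) (hQ : 0 < Q) (hPQ : IsCoprime P Q) (r : ℕ) :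
    ∃ (e : ℕ → ℕ) (u : ℕ → ℤ), (∀ i < r, 0 < u i ∧ IsCoprime (u i) Q) ∧
      ∀ i j, i < j → j < r → Q ^ e i * u i < Q ^ e j * u j ∧
        Q * (Q ^ e j * u j - Q ^ e i * u i) ∣ Q ^ e i * u i ∧
        P * (Q ^ e j * u j - Q ^ e i * u i) ∣ Q ^ e j * u j := by
  classical
  induction r with
  | zero => exact ⟨fun _ => 0, fun _ => 1, fun i hi => absurd hi (Nat.not_lt_zero i),
      fun i j _ hj => absurd hj (Nat.not_lt_zero j)⟩
  | succ r ih =>
    obtain ⟨e, u, hu, hx⟩ := ih
    set X : ℕ → ℤ := fun i => Q ^ (e i + 1) * u i with hX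
    set U : ℤ := ∏ i ∈ range r, u i with hU
    set V : ℕ → ℤ := fun i => ∏ j ∈ (range r).erase i, u j with hV
    set M : ℤ := P * U with hM
    set S : ℤ := ∑ i ∈ range r, X i with hS
    set G : ℤ := Q * S + 1 with hG
    set z : ℤ := M * M * G with hz
    set w : ℕ → ℤ := fun i => M * (P * V i * G) - Q ^ (e i + 1) with hw
    set E : ℕ := ∑ i ∈ range r, e i with hE
    set W : ℤ := ∏ i ∈ range r, w i with hWd
    set K : ℤ := M * Q ^ (E + 2) with hK
    have hXpos : ∀ i < r, 0 < X i := fun i hi => mul_pos (pow_pos hQ _) (hu i hi).1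
    have hUpos : 0 < U := prod_pos fun i hi => (hu i (mem_range.1 hi)).1
    have hMpos : 0 < M := mul_pos hP hUpos
    have hUQ : IsCoprime U Q := IsCoprime.prod_left fun i hi => (hu i (mem_range.1 hi)).2
    have hMQ : IsCoprime M Q := IsCoprime.mul_left hPQ hUQ
    have hSpos : 0 ≤ S := sum_nonneg fun i hi => (hXpos i (mem_range.1 hi)).le
    have hXS : ∀ i < r, X i ≤ S := fun i hi =>
      single_le_sum (f := X) (fun j hj => (hXpos j (mem_range.1 hj)).le) (mem_range.2 hi)
    have hGpos : 0 < G := by positivity
    have hGQ : IsCoprime G Q := by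
      have h := IsCoprime.add_mul_left_left (isCoprime_one_left (x := Q)) S
      have e1 : (1 : ℤ) + Q * S = G := by rw [hG]; ring
      rw [e1] at h
      exact h
    have hzQ : IsCoprime z Q := IsCoprime.mul_left (IsCoprime.mul_left hMQ hMQ) hGQ
    have hzX : ∀ i < r, X i < z := by
      intro i hi
      have h1 : S + 1 ≤ G := by
        rw [hG]
        nlinarith
      have h2 : 1 ≤ M * M := by nlinarith
      have h3 : G ≤ z := by
        rw [hz]
        nlinarith
      have := hXS i hi
      linarith
    have hUV : ∀ i < r, u i * V i = U := fun i hi => mul_prod_erase (range r) u (mem_range.2 hi)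
    have hVQ : ∀ i, IsCoprime (V i) Q := fun i => IsCoprime.prod_left fun j hj =>
      (hu j (mem_range.1 (mem_of_mem_erase hj))).2
    have hzw : ∀ i < r, z - X i = u i * w i := by
      intro i hi
      have h1 := hUV i hi
      simp only [hz, hX, hw]
      rw [hM, ← h1]
      ring
    have hwM : ∀ i, IsCoprime (w i) M := fun i => cop_w M Q _ _ hMQ
    have hwQ : ∀ i, IsCoprime (w i) Q := fun i => cop_q _ Q (e i)
      (IsCoprime.mul_left hMQ (IsCoprime.mul_left (IsCoprime.mul_left hPQ (hVQ i)) hGQ))
    have hw0 : ∀ i < r, w i ≠ 0 := by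
      intro i hi h0
      have h1 := hzw i hi
      rw [h0, mul_zero] at h1
      have := hzX i hi
      linarith
    have hWK : IsCoprime W K := by
      refine IsCoprime.prod_left fun i _ => ?_
      exact IsCoprime.mul_right (hwM i) (hwQ i).pow_right
    have hW0 : W ≠ 0 := prod_ne_zero_iff.2 fun i hi => hw0 i (mem_range.1 hi)
    have hK0 : K ≠ 0 := (mul_pos hMpos (pow_pos hQ _)).ne'
    obtain ⟨L, hL, hKL, hWL⟩ := crt W K z hW0 hK0 hWK
    have heE : ∀ i < r, e i ≤ E := fun i hi =>
      single_le_sum (f := e) (fun _ _ => Nat.zero_le _) (mem_range.2 hi)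
    have hPuM : ∀ i < r, P * u i ∣ M := fun i hi => by
      rw [hM, ← hUV i hi]
      exact ⟨V i, by ring⟩
    -- the multiples of L
    have hbig : ∀ i < r, P * Q ^ (e i + 2) * u i ∣ L := by
      intro i hi
      refine dvd_trans ?_ hKL
      have h1 : P * Q ^ (e i + 2) * u i = (P * u i) * Q ^ (e i + 2) := by ring
      rw [h1, hK]
      exact mul_dvd_mul (hPuM i hi) (pow_dvd_pow Q (by have := heE i hi; omega))
    have hl : ∀ i, ∃ l : ℤ, i < r → L = Q ^ (e i + 2) * l := by
      intro i
      by_cases hi : i < r
      · have h1 : Q ^ (e i + 2) ∣ L := dvd_trans ⟨P * u i, by ring⟩ (hbig i hi)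
        obtain ⟨l, hl⟩ := h1
        exact ⟨l, fun _ => hl⟩
      · exact ⟨0, fun h => absurd h hi⟩
    choose l hl using hl
    refine ⟨fun i => if i < r then e i + 1 else 0, fun i => if i < r then u i + Q * l i else L + z, ?_, ?_⟩
    · intro i hi
      by_cases h : i < r
      · simp only [if_pos h]
        have hlpos : 0 < l i := by
          have h1 := hl i h
          have h2 : 0 < Q ^ (e i + 2) := pow_pos hQ _
          by_contra h3
          push Not at h3
          have : Q ^ (e i + 2) * l i ≤ 0 := mul_nonpos_of_nonneg_of_nonpos h2.le h3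
          linarith
        refine ⟨?_, ?_⟩
        · have := (hu i h).1
          have h4 := mul_pos hQ hlpos
          linarith
        · exact IsCoprime.add_mul_left_left (hu i h).2 _
      · simp only [if_neg h]
        have hzpos : 0 < z := by positivity
        refine ⟨by linarith, ?_⟩
        have h1 : Q ∣ L := dvd_trans (by rw [hK]; exact ⟨M * Q ^ (E + 1), by ring⟩) hKL
        obtain ⟨l', hl'⟩ := h1
        have h2 := IsCoprime.add_mul_left_left hzQ l'
        rw [hl', add_comm]
        exact h2
    · have hval : ∀ i < r, Q ^ (if i < r then e i + 1 else 0) * (if i < r then u i + Q * l i else L + z) = L + X i := by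
        intro i hi
        rw [if_pos hi, if_pos hi]
        have h1 := hl i hi
        simp only [hX]
        linear_combination (-1 : ℤ) * h1
      have hvr : Q ^ (if r < r then e r + 1 else 0) * (if r < r then u r + Q * l r else L + z) = L + z := by
        rw [if_neg (lt_irrefl r), if_neg (lt_irrefl r), pow_zero, one_mul]
      intro i j hij hj
      have hi : i < r := by omega
      rcases Nat.lt_succ_iff_lt_or_eq.1 hj with hjr | hjr
      · -- both old
        have h0 := hx i j hij hjr
        have e1 := hval i hi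
        have e2 := hval j hjr
        simp only [e1, e2]
        have h1 : X j - X i = Q * (Q ^ e j * u j - Q ^ e i * u i) := by
          simp only [hX]
          ring
        have h2 : X i = Q * (Q ^ e i * u i) := by
          simp only [hX]
          ring
        have h3 : X j = Q * (Q ^ e j * u j) := by
          simp only [hX]
          ring
        have e3 : L + X j - (L + X i) = X j - X i := by ring
        rw [e3]
        refine ⟨?_, ?_, ?_⟩
        · have := mul_lt_mul_of_pos_left h0.1 hQ
          rw [← h2, ← h3] at this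
          linarith
        · have h4 : Q * (X j - X i) ∣ X i := by
            rw [h1, h2]
            exact mul_dvd_mul_left Q h0.2.1
          refine dvd_add ?_ h4
          refine dvd_trans h4 ?_
          refine dvd_trans ?_ (hbig i hi)
          simp only [hX]
          exact ⟨P * Q, by ring⟩
        · have h4 : P * (X j - X i) ∣ X j := by
            rw [h1, h3]
            have h5 := mul_dvd_mul_left Q h0.2.2
            have e4 : Q * (P * (Q ^ e j * u j - Q ^ e i * u i)) = P * (Q * (Q ^ e j * u j - Q ^ e i * u i)) := by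
              ring
            rw [e4] at h5
            exact h5
          refine dvd_add ?_ h4
          have h5 : X j - X i ∣ X i := by
            rw [h1, h2]
            exact mul_dvd_mul_left Q (dvd_trans (Dvd.intro_left _ rfl) h0.2.1)
          refine dvd_trans (mul_dvd_mul_left P h5) (dvd_trans ?_ (hbig i hi))
          simp only [hX]
          exact ⟨Q, by ring⟩
      · -- the new one
        subst hjr
        have e1 := hval i hi
        simp only [e1]
        rw [hvr]
        have e3 : L + z - (L + X i) = u i * w i := by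
          rw [← hzw i hi]
          ring
        rw [e3]
        have hwi : w i ∣ L + z := dvd_trans (dvd_prod_of_mem w (mem_range.2 hi)) hWL
        have hwi2 : w i ∣ L + X i := by
          have : L + X i = (L + z) - u i * w i := by
            rw [← hzw i hi]
            ring
          rw [this]
          exact dvd_sub hwi (Dvd.intro_left _ rfl)
        have hcu : IsCoprime (u i) (w i) := by
          have h1 : u i ∣ M := dvd_trans (Dvd.intro_left _ rfl) (hPuM i hi)
          exact (hwM i).symm.of_isCoprime_of_dvd_left h1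
        have hcP : IsCoprime P (w i) := by
          have h1 : P ∣ M := dvd_trans (Dvd.intro _ rfl) (hPuM i hi)
          exact (hwM i).symm.of_isCoprime_of_dvd_left h1
        refine ⟨?_, ?_, ?_⟩
        · have := hzX i hi
          linarith
        · rw [← mul_assoc]
          refine IsCoprime.mul_dvd (IsCoprime.mul_left (hwQ i).symm hcu) ?_ hwi2
          refine dvd_add (dvd_trans ?_ (hbig i hi)) ?_
          · exact ⟨P * Q ^ (e i + 1), by ring⟩
          · simp only [hX]
            exact ⟨Q ^ e i, by ring⟩
        · rw [← mul_assoc]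
          refine IsCoprime.mul_dvd (IsCoprime.mul_left hcP hcu) ?_ hwi
          refine dvd_add (dvd_trans ?_ (hbig i hi)) ?_
          · exact ⟨Q ^ (e i + 2), by ring⟩
          · rw [hz]
            exact dvd_trans (hPuM i hi) ⟨M * G, by ring⟩

end Pool.Agent.Helper896.MR
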