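import Pool.Agent.Helper896.MR.Chain

/-!
Library Helper896.MR (helper896): chains with ratios `(a n + b) / (a n + d)`.
-/

set_option autoImplicit false

namespace Pool.Agent.Helper896.MR

open Finset

/-- the case `d < b` -/
lemma up (a b d : ℤ) (ha : 0 < a) (hbd : d < b) (hu : ∀ k : ℤ, k ∣ a → k ∣ b → k ∣ d → IsUnit k)
    (hdvd : a ∣ b * d) (r N : ℕ) :
    ∃ x : ℕ → ℤ, (∀ i < r, 0 < x i) ∧ ∀ i j, i < j → j < r →
      ∃ n : ℕ, N ≤ n ∧ 0 < a * n + b ∧ 0 < a * n + d ∧ x j * (a * n + d) = x i * (a * n + b) := by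
  have hg0 : 0 < Int.gcd a b := Int.gcd_pos_of_ne_zero_left b ha.ne'
  obtain ⟨Q, b', hQb, hQ, hb'⟩ := Int.exists_gcd_one hg0
  set P : ℤ := (Int.gcd a b : ℤ) with hP
  have hP0 : 0 < P := by
    rw [hP]
    exact_mod_cast hg0
  have hQ0 : 0 < Q := by
    by_contra h
    push Not at h
    have : Q * P ≤ 0 := mul_nonpos_of_nonpos_of_nonneg h hP0.le
    linarith
  have hQd : Q ∣ d := by
    have h1 : Q * P ∣ (b' * d) * P := by
      rw [← hQ]
      have e : b' * d * P = b * d := by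
        rw [hb']
        ring
      rw [e]
      exact hdvd
    have h2 : Q ∣ b' * d := Int.dvd_of_mul_dvd_mul_right hP0.ne' h1
    exact (Int.isCoprime_iff_gcd_eq_one.2 hQb).dvd_of_dvd_mul_left h2
  have hPQ : IsCoprime P Q := by
    rw [Int.isCoprime_iff_gcd_eq_one]
    have h1 : ((Int.gcd P Q : ℕ) : ℤ) ∣ P := Int.gcd_dvd_left ..
    have h2 : ((Int.gcd P Q : ℕ) : ℤ) ∣ Q := Int.gcd_dvd_right ..
    have h3 : IsUnit ((Int.gcd P Q : ℕ) : ℤ) := by
      apply hu
      · rw [hQ]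
        exact Dvd.dvd.mul_right h2 P
      · rw [hb']
        exact Dvd.dvd.mul_left h1 b'
      · exact h2.trans hQd
    exact Int.isUnit_iff_natAbs_eq.1 h3
  set t : ℤ := a * N + |d| + 1 with ht
  have ht0 : 0 < t := by positivity
  set Q' : ℤ := Q * (P * t + 1) with hQ'
  have hQ'0 : 0 < Q' := by positivity
  have hPQ' : IsCoprime P Q' := by
    apply IsCoprime.mul_right hPQ
    have h := IsCoprime.add_mul_left_left (isCoprime_one_left (x := P)) t
    have e : (1 : ℤ) + P * t = P * t + 1 := by ring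
    rw [e] at h
    exact h.symm
  have hQt : t ≤ Q' := by
    have h1 : t ≤ P * t + 1 := by nlinarith
    have h2 : P * t + 1 ≤ Q' := by
      rw [hQ']
      nlinarith
    linarith
  obtain ⟨e, u, h1, h2⟩ := chain P Q' hP0 hQ'0 hPQ' r
  refine ⟨fun i => Q' ^ e i * u i, fun i hi => mul_pos (pow_pos hQ'0 _) (h1 i hi).1, ?_⟩
  intro i j hij hj
  obtain ⟨h3, h4, h5⟩ := h2 i j hij hj
  have hxi : 0 < Q' ^ e i * u i := mul_pos (pow_pos hQ'0 _) (h1 i (by omega)).1
  simp only
  set x : ℤ := Q' ^ e i * u i with hx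
  set y : ℤ := Q' ^ e j * u j with hy
  set D : ℤ := y - x with hD
  have hD0 : 0 < D := by linarith
  obtain ⟨k, hk⟩ := h4
  have hk0 : 0 < k := by
    by_contra h
    push Not at h
    have : Q' * D * k ≤ 0 := mul_nonpos_of_nonneg_of_nonpos (by positivity) h
    linarith
  set m : ℤ := Q' * k with hm
  have hmt : t ≤ m := by nlinarith
  have hxm : x = m * D := by
    rw [hk, hm]
    ring
  have hym : y = (m + 1) * D := by
    have : y = x + D := by rw [hD]; ring
    rw [this, hxm]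
    ring
  have hPm : P ∣ m + 1 := by
    rw [hym] at h5
    exact Int.dvd_of_mul_dvd_mul_right hD0.ne' h5
  have hQm : Q ∣ m := ⟨(P * t + 1) * k, by rw [hm, hQ']; ring⟩
  have hadvd : a ∣ m * (b - d) - d := by
    have e1 : m * (b - d) - d = m * b - (m + 1) * d := by ring
    rw [e1, hQ, mul_comm]
    apply IsCoprime.mul_dvd hPQ
    · apply dvd_sub
      · rw [hb']
        exact ⟨m * b', by ring⟩
      · exact Dvd.dvd.mul_right hPm d
    · apply dvd_sub
      · exact Dvd.dvd.mul_right hQm b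
      · exact Dvd.dvd.mul_left hQd (m + 1)
  obtain ⟨n, hn⟩ := hadvd
  have hnN : (N : ℤ) ≤ n := by
    have h6 : a * N ≤ a * n := by
      rw [← hn]
      have h7 : m ≤ m * (b - d) := by
        have : 1 ≤ b - d := by omega
        nlinarith
      have h8 : d ≤ |d| := le_abs_self d
      linarith
    exact le_of_mul_le_mul_left h6 ha
  have hn0 : 0 ≤ n := le_trans (Int.natCast_nonneg N) hnN
  have e2 : ((n.toNat : ℕ) : ℤ) = n := Int.toNat_of_nonneg hn0
  have e3 : a * n + d = m * (b - d) := by linarith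
  have e4 : a * n + b = (m + 1) * (b - d) := by linarith
  have hbd' : 0 < b - d := by linarith
  have hm0 : 0 < m := by linarith
  refine ⟨n.toNat, by omega, ?_, ?_, ?_⟩
  · rw [e2, e4]
    positivity
  · rw [e2, e3]
    positivity
  · rw [e2, e3, e4, hxm, hym]
    ring

/-- both cases -/
lemma both (a b d : ℤ) (ha : 0 < a) (hbd : b ≠ d) (hu : ∀ k : ℤ, k ∣ a → k ∣ b → k ∣ d → IsUnit k)
    (hdvd : a ∣ b * d) (r N : ℕ) :
    ∃ x : ℕ → ℤ, (∀ i < r, 0 < x i) ∧ ∀ i j, i < j → j < r →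
      ∃ n : ℕ, N ≤ n ∧ 0 < a * n + b ∧ 0 < a * n + d ∧ x j * (a * n + d) = x i * (a * n + b) := by
  rcases lt_or_gt_of_ne hbd with h | h
  · obtain ⟨x, h1, h2⟩ := up a d b ha h (fun k h1 h2 h3 => hu k h1 h3 h2) (by rwa [mul_comm]) r N
    refine ⟨fun i => x (r - 1 - i), fun i hi => h1 _ (by omega), ?_⟩
    intro i j hij hj
    obtain ⟨n, h3, h4, h5, h6⟩ := h2 (r - 1 - j) (r - 1 - i) (by omega) (by omega)
    exact ⟨n, h3, h5, h4, h6.symm⟩
  · exact up a b d ha h hu hdvd r N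

end Pool.Agent.Helper896.MR
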